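import Pool.Agent.H94.LP4.H74.BP.Dec_1
import Pool.Agent.H94.LP4.H74.SC.NefS_1

/-!
# Nef classes of large self-intersection on the general blown-up plane

Let `X_n` be the blow-up of the plane at `n` general points and `L = d H - ∑ m_i E_i` with all `m_i ≥ 0`.

* Let `L` be nef and let `F` be a Cremona image of the class `H` of a line, for example `F = H`.  If
  `L · F` is large in terms of `ε` and `L ^ 2 ≥ (1 / 37 + ε) (L · F) ^ 2`, then `L` is non-special.
* Let `L ^ 2 ≥ ε d ^ 2`, where `d` is large in terms of `ε`, and let `J` be the set of the points with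
  `m_i > ε d / 8`; it has at most `⌈8 / ε⌉ ^ 2` elements.  If the class `L_J = d H - ∑_{i ∈ J} m_i E_i` is
  non-special, then so is `L`; if `L` is nef, then so is `L_J`.  So for these classes the question is
  reduced to at most `⌈8 / ε⌉ ^ 2` points.
* If moreover `L` is nef and `- K · L_J ≥ ε d`, for instance if `J` has at most nine elements, or
  `L_J ^ 2 ≥ (1 / 37 + ε) d ^ 2`, then `L` is non-special.
-/

namespace Pool.Agent.Results.MP_0f5763_ag.NefBig

open Finset Pool.Agent.H18.Fat Pool.Agent.H18.Nef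

/-- `L = d H - ∑ m_i E_i` is nef on the blow-up of the plane at `n` general points: `L · C ≥ 0` for every
non-empty system `C` of curves of degree `e` with multiplicities at least `k_i`. -/
def Nef {n : ℕ} (d : ℕ) (m : Fin n → ℕ) : Prop :=
  ∀ (e : ℕ) (k : Fin n → ℕ), 1 ≤ generalDim 2 e k → ∑ i, m i * k i ≤ d * e

/-- The multiplicities `m_i > ε d / 8`, the others being replaced by zero. -/
noncomputable def largePart {n : ℕ} (ε : ℝ) (d : ℕ) (m : Fin n → ℕ) : Fin n → ℕ :=
  open scoped Classical in fun i => if ε / 8 * d < (m i : ℝ) then m i else 0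

/-- Non-speciality, and the reduction to the large multiplicities. -/
theorem result (ε : ℝ) (hε : 0 < ε) : ∃ d₀ : ℕ,
    (∀ (n e : ℕ) (k : Fin n → ℕ), LineImage e k → ∀ (d x : ℕ) (m : Fin n → ℕ), Nef d m →
      ∑ i, m i * k i + x = d * e → d₀ ≤ x →
      ∑ i, (m i : ℝ) ^ 2 + (1 / 37 + ε) * x ^ 2 ≤ d ^ 2 →
      ForGeneralPoints 2 n fun p => ImposesMaximalConditions 2 d p m) ∧
    ∀ (n d : ℕ) (m : Fin n → ℕ), d₀ ≤ d → ∑ i, (m i : ℝ) ^ 2 ≤ (1 - ε) * d ^ 2 →
      {i | ε / 8 * d < (m i : ℝ)}.ncard ≤ ⌈8 / ε⌉₊ ^ 2 ∧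
      (Nef d m → Nef d (largePart ε d m)) ∧
      ((ForGeneralPoints 2 n fun p => ImposesMaximalConditions 2 d p (largePart ε d m)) →
        ForGeneralPoints 2 n fun p => ImposesMaximalConditions 2 d p m) ∧
      (Nef d m → {i | ε / 8 * d < (m i : ℝ)}.ncard ≤ 9 ∨
          ∑ i, (largePart ε d m i : ℝ) ≤ (3 - ε) * d ∨
          ∑ i, (largePart ε d m i : ℝ) ^ 2 + (1 / 37 + ε) * d ^ 2 ≤ d ^ 2 →
        ForGeneralPoints 2 n fun p => ImposesMaximalConditions 2 d p m) := by
  classical
  obtain ⟨M, hM⟩ := exists_nat_ge (8 / ε)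
  have hM0 : (0 : ℝ) < M := lt_of_lt_of_le (by positivity) hM
  have hM1 : 1 ≤ M := by exact_mod_cast hM0
  obtain ⟨d₀, hd₀⟩ := Pool.Agent.H74.BP.max_big 2 M le_rfl hM1 (ε / 4) (by positivity)
  obtain ⟨d₂, hd₂⟩ := Pool.Agent.H74.SC.nef_big ε hε
  obtain ⟨d₃, hd₃⟩ := Pool.Agent.H74.SC.nef_big_image ε hε
  obtain ⟨d₁, hd₁⟩ := exists_nat_ge (8 * M / ε + 1)
  refine ⟨d₀ + d₁ + d₂ + d₃, fun n e k hF d x m hnef hx hxd hsq =>
    hd₃ n e k hF d x m hnef (by omega) hx hsq, fun n d m hd hsq => ?_⟩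
  have hdd : (8 * M / ε + 1 : ℝ) ≤ d := hd₁.trans (by
    exact_mod_cast (by omega : d₁ ≤ d))
  have hdM : 8 * M / ε ≤ (d : ℝ) := by linarith
  have hd0 : (0 : ℝ) < d := by
    have : (0 : ℝ) ≤ 8 * M / ε := by positivity
    linarith
  have hdpos : 0 < d := by exact_mod_cast hd0
  have hε1 : ε ≤ 1 := by
    by_contra hcon
    push Not at hcon
    have h1 : (0 : ℝ) ≤ ∑ i, (m i : ℝ) ^ 2 := sum_nonneg fun i _ => sq_nonneg _
    have h2 : (0 : ℝ) < (ε - 1) * d ^ 2 := by
      have : (0 : ℝ) < ε - 1 := by linarith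
      positivity
    linarith
  set J := univ.filter fun i : Fin n => ε / 8 * d < (m i : ℝ) with hJdef
  have hJset : {i : Fin n | ε / 8 * d < (m i : ℝ)} = (J : Set (Fin n)) := by
    ext i
    rw [hJdef, mem_coe, mem_filter]
    exact ⟨fun h => ⟨mem_univ i, h⟩, fun h => h.2⟩
  have hlarge : largePart ε d m = fun i => if i ∈ J then m i else 0 := by
    funext i
    unfold largePart
    by_cases hi : ε / 8 * d < (m i : ℝ)
    · rw [if_pos hi, if_pos (by
        rw [hJdef, mem_filter]
        exact ⟨mem_univ i, hi⟩)]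
    · rw [if_neg hi, if_neg (by
        rw [hJdef, mem_filter]
        exact fun h => hi h.2)]
  have hnJ : ∀ i, i ∉ J → (m i : ℝ) ≤ ε / 8 * d := by
    intro i hi
    by_contra hcon
    push Not at hcon
    exact hi (by
      rw [hJdef, mem_filter]
      exact ⟨mem_univ i, hcon⟩)
  have hmed : ∀ i ∈ Pool.Agent.H74.BP.med M m J, M < m i := by
    intro i hi
    unfold Pool.Agent.H74.BP.med at hi
    rcases mem_union.1 hi with hi | hi
    · have h1 : ε / 8 * d < (m i : ℝ) := (mem_filter.1 hi).2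
      have h2 : (M : ℝ) ≤ ε / 8 * d := by
        rw [div_le_iff₀ hε] at hdM
        linarith
      exact_mod_cast h2.trans_lt h1
    · exact (mem_filter.1 hi).2
  have hform := Pool.Agent.H74.BP.exists_form_of_sq hε hε1 hM hdpos hsq
    (Pool.Agent.H74.BP.med M m J) hmed
  obtain ⟨hmax, hcard⟩ := hd₀ n d m J (by omega) (fun i hi => by
    have := hnJ i hi
    linarith) ⟨_, Nat.floor_le (by
      have : (0 : ℝ) ≤ 1 - ε / 4 := by linarith
      positivity), hform⟩
  have hcard' : {i | ε / 8 * d < (m i : ℝ)}.ncard ≤ ⌈8 / ε⌉₊ ^ 2 := by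
    have h1 : (2 / (ε / 4) : ℝ) = 8 / ε := by
      field_simp
      ring
    have h2 : ε / 4 / 2 = ε / 8 := by ring
    rw [h1, h2] at hcard
    exact hcard
  have hred : (ForGeneralPoints 2 n fun p => ImposesMaximalConditions 2 d p (largePart ε d m)) →
      ForGeneralPoints 2 n fun p => ImposesMaximalConditions 2 d p m := by
    intro h
    rw [hlarge] at h
    refine ((hmax.and h).and (Pool.Agent.H18.Ub.generalDim_spec 2 d
      fun i => if i ∈ J then m i else 0)).mono fun p hp => ?_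
    obtain ⟨⟨hp1, hp2⟩, hp3⟩ := hp
    unfold ImposesMaximalConditions at hp2 ⊢
    rw [hp3] at hp2
    have h1 : ∑ i, (((if i ∈ J then m i else 0) + 2 - 1).choose 2 : ℤ) =
        ∑ i ∈ J, ((m i + 2 - 1).choose 2 : ℤ) := by
      rw [← sum_subset (subset_univ J)]
      · exact sum_congr rfl fun i hi => by rw [if_pos hi]
      · intro i _ hi
        rw [if_neg hi]
        rfl
    have h2 : ∑ i, ((m i + 2 - 1).choose 2 : ℤ) = ∑ i ∈ J, ((m i + 2 - 1).choose 2 : ℤ) +
        (Pool.Agent.H74.BP.len 2 m (univ.filter fun i => i ∉ J) : ℤ) := by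
      rw [Pool.Agent.H74.BP.len_cast, ← sum_filter_add_sum_filter_not univ (fun i => i ∈ J)
        (fun i => ((m i + 2 - 1).choose 2 : ℤ))]
      congr 1
      refine sum_congr ?_ fun _ _ => rfl
      ext i
      simp
    rw [hp1, hp2, h1, h2]
    have h3 : (0 : ℤ) ≤ (Pool.Agent.H74.BP.len 2 m (univ.filter fun i => i ∉ J) : ℤ) :=
      Int.natCast_nonneg _
    omega
  refine ⟨hcard', fun hnef => ?_, hred, fun hnef h9 => hred ?_⟩
  · rw [hlarge]
    exact Pool.Agent.H74.BP.nef_on hnef J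
  · have hsqJ : ∑ i, (largePart ε d m i : ℝ) ^ 2 ≤ (1 - ε) * d ^ 2 := by
      rw [hlarge]
      refine le_trans (sum_le_sum fun i _ => ?_) hsq
      dsimp only
      split_ifs
      · exact le_rfl
      · rw [Nat.cast_zero, zero_pow two_ne_zero]
        exact sq_nonneg _
    have hnefJ : Pool.Agent.H18.Nef.NefC d (largePart ε d m) := by
      rw [hlarge]
      exact Pool.Agent.H74.BP.nef_on hnef J
    refine hd₂ n d _ (by omega) hnefJ ?_
    rcases h9 with h9 | h9 | h9
    · refine Or.inr ⟨hsqJ, ?_⟩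
      rw [hJset, Set.ncard_coe_finset] at h9
      -- the inequality of Cauchy and Schwarz
      have h1 := Finset.sum_mul_sq_le_sq_mul_sq univ (fun i => (largePart ε d m i : ℝ))
        fun i => if i ∈ J then 1 else 0
      have h2 : ∑ i, (largePart ε d m i : ℝ) * (if i ∈ J then 1 else 0) =
          ∑ i, (largePart ε d m i : ℝ) := by
        rw [hlarge]
        refine sum_congr rfl fun i _ => ?_
        dsimp only
        split_ifs <;> simp
      have h3 : ∑ i : Fin n, (if i ∈ J then (1 : ℝ) else 0) ^ 2 ≤ 9 := by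
        have h4 : ∑ i : Fin n, (if i ∈ J then (1 : ℝ) else 0) ^ 2 = J.card := by
          rw [Finset.card_eq_sum_ones, Nat.cast_sum, ← sum_subset (subset_univ J)]
          · exact sum_congr rfl fun i hi => by
              rw [if_pos hi]
              simp
          · intro i _ hi
            rw [if_neg hi]
            simp
        rw [h4]
        exact_mod_cast h9
      rw [h2] at h1
      have h4 : (∑ i, (largePart ε d m i : ℝ)) ^ 2 ≤ ((1 - ε) * d ^ 2) * 9 :=
        h1.trans (mul_le_mul hsqJ h3 (sum_nonneg fun _ _ => sq_nonneg _) (by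
          have : (0 : ℝ) ≤ 1 - ε := by linarith
          positivity))
      have h5 : (0 : ℝ) ≤ (3 - ε) * d := by
        have : (0 : ℝ) ≤ 3 - ε := by linarith
        positivity
      refine abs_le_of_sq_le_sq' (h4.trans ?_) h5 |>.2
      have h6 : (0 : ℝ) ≤ (3 * ε + ε ^ 2) * d ^ 2 := by positivity
      nlinarith
    · exact Or.inr ⟨hsqJ, h9⟩
    · exact Or.inl (by linarith)

end Pool.Agent.Results.MP_0f5763_ag.NefBig
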