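import Pool.Agent.H94.LP1.M31

/-!
# Nef systems of plane curves with at most eight large multiplicities are non-special

Let `X_n` be the blow-up of the plane at `n` general points and `L = d H - ∑ m_i E_i`.  There are `K, E`
such that, for all `M ≥ 1` and all `n`, with `D = K * M ^ E`: if `L` is nef, at most eight of the
multiplicities `m_i` exceed `M` and `L · F ≥ D` for all Cremona images `F = e H - ∑ k_i E_i` of the class
`H` of a line (so that `L` has Cremona reduced degree at least `D`), then `L` is non-special.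
-/

namespace Pool.Agent.Results.MP_0f5763_ag.NefEightLarge

open Finset Pool.Agent.H18.Fat

/-- `L = d H - ∑ m_i E_i` is nef on the blow-up of the plane at `n` general points: `L · C ≥ 0` for every
non-empty system `C` of curves of degree `e` with multiplicities at least `k_i`. -/
def Nef {n : ℕ} (d : ℕ) (m : Fin n → ℕ) : Prop :=
  ∀ (e : ℕ) (k : Fin n → ℕ), 1 ≤ generalDim 2 e k → ∑ i, m i * k i ≤ d * e

/-- `L · F ≥ D` for every Cremona image `F = e H - ∑ k_i E_i` of the class `H` of a line. -/
def DegreeBound {n : ℕ} (D : ℕ) (d : ℕ) (m : Fin n → ℕ) : Prop :=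
  ∀ (e : ℕ) (k : Fin n → ℕ), Pool.Agent.H18.Nef.LineImage e k → ∑ i, m i * k i + D ≤ d * e

/-- A nef class with at most eight multiplicities above `M` is non-special if `L · F ≥ K * M ^ E` for all
Cremona images `F` of `H`. -/
theorem result : ∃ K E : ℕ, ∀ M : ℕ, 1 ≤ M → ∀ (n d : ℕ) (m : Fin n → ℕ),
    (univ.filter fun i => M < m i).card ≤ 8 → Nef d m → DegreeBound (K * M ^ E) d m →
    ForGeneralPoints 2 n fun p => ImposesMaximalConditions 2 d p m := by
  obtain ⟨K, E, h⟩ := Pool.Agent.H18.Nef.eight_large
  refine ⟨K, E, fun M hM n d m hcard hnef hbig =>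
    h M hM n d m _ hcard (fun i hi => ?_) ⟨hnef, hbig⟩⟩
  by_contra hcon
  exact hi (mem_filter.2 ⟨mem_univ i, by omega⟩)

end Pool.Agent.Results.MP_0f5763_ag.NefEightLarge
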