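import Pool.Agent.H94.LP3.H74.KV.Uni

/-!
# Nef linear systems on the general blown-up plane, uniformly in the number of points

Let `X_n` be the blow-up of the plane at `n` general points and `ε > 0`.  There is a `d₀`, depending only
on `ε`, such that for all `n` and all `L = d H - ∑ m_i E_i` on `X_n` with `d ≥ d₀`:

* if `a H - ∑ m_i E_i` is nef for some `a ≤ (1 - ε) d`, then `L` is non-special;
* if `L` is nef, then `h⁰(L)` exceeds the expected value by at most `ε d ^ 2`.
-/

namespace Pool.Agent.Results.MP_0f5763_ag.NefInterior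

open Finset Pool.Agent.H18.Fat

/-- `d H - ∑ m_i E_i` is nef on the blow-up of the plane at `n` general points: its intersection number
with every non-empty system of curves of degree `e` with multiplicities at least `k_i` is `≥ 0`. -/
def Nef {n : ℕ} (d : ℕ) (m : Fin n → ℕ) : Prop :=
  ∀ (e : ℕ) (k : Fin n → ℕ), 1 ≤ generalDim 2 e k → ∑ i, m i * k i ≤ d * e

/-- Nef systems away from the boundary of the nef cone are non-special, and all nef systems are almost
non-special. -/
theorem result (ε : ℝ) (hε : 0 < ε) : ∃ d₀ : ℕ, ∀ (n d : ℕ) (m : Fin n → ℕ), d₀ ≤ d →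
    ((∃ a : ℕ, (a : ℝ) ≤ (1 - ε) * d ∧ Nef a m) →
      ForGeneralPoints 2 n fun p => ImposesMaximalConditions 2 d p m) ∧
    (Nef d m → (generalDim 2 d m : ℝ) ≤
      max 0 (((d + 2).choose 2 : ℝ) - ∑ i, ((m i + 2 - 1).choose 2 : ℝ)) + ε * d ^ 2) := by
  obtain ⟨d₁, h1⟩ := Pool.Agent.H74.KV.nef_interior ε hε
  obtain ⟨d₂, h2⟩ := Pool.Agent.H74.KV.nef_almost ε hε
  exact ⟨d₁ + d₂, fun n d m hd => ⟨fun ⟨a, ha, hnef⟩ => h1 n d a m (by omega) hnef ha,
    fun hnef => h2 n d m (by omega) hnef⟩⟩

end Pool.Agent.Results.MP_0f5763_ag.NefInterior
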