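import Pool.Agent.H94.LP1.H18.Nef.NefB_1

/-!
# Nef systems of plane curves with at most nine large multiplicities are non-special

Let `X_n` be the blow-up of the plane at `n` general points, `L = d H - ∑ m_i E_i`, `J` a set of at most
nine of the points, `L_J = d H - ∑_{i ∈ J} m_i E_i` and `m_i ≤ M` outside `J`.  If `L_J` is nef,
`L_J · F ≥ D` for all classes `F` supported on `J` with `h^0(F) ≥ 2`, and `- K · L_J ≥ D` on the blow-up of
the points of `J`, with `D = K M^E`, then `L` is non-special.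
-/

namespace Pool.Agent.Results.MP_0f5763_ag.NefNineLarge

open Finset Pool.Agent.H18.Fat

/-- `L_J = d H - ∑_{i ∈ J} m_i E_i` is nef on the blow-up of the plane at general points `p_i`,
`i ∈ J`: `L_J · C ≥ 0` for every non-empty system `C` of curves of degree `e` with multiplicities at
least `k_i`, where `k_i = 0` outside `J`. -/
def NefOn {n : ℕ} (J : Finset (Fin n)) (d : ℕ) (m : Fin n → ℕ) : Prop :=
  ∀ (e : ℕ) (k : Fin n → ℕ), (∀ i, i ∉ J → k i = 0) → 1 ≤ generalDim 2 e k →
    ∑ i, m i * k i ≤ d * e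

/-- `L_J · F ≥ D` for every system `F` of positive dimension of curves of degree `e` with
multiplicities at least `k_i`, where `k_i = 0` outside `J`. -/
def MovableBound {n : ℕ} (D : ℕ) (J : Finset (Fin n)) (d : ℕ) (m : Fin n → ℕ) : Prop :=
  ∀ (e : ℕ) (k : Fin n → ℕ), (∀ i, i ∉ J → k i = 0) → 2 ≤ generalDim 2 e k →
    ∑ i, m i * k i + D ≤ d * e

/-- There are `K`, `E` such that for all `M ≥ 1`, with `D = K M^E`: if all multiplicities outside a
set `J` of at most nine points are at most `M`, `L_J` is nef, `L_J · F ≥ D` for all movable `F`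
supported on `J` and `3 d - ∑_{i ∈ J} m_i ≥ D`, then the system is non-special. -/
theorem result : ∃ K E : ℕ, ∀ M : ℕ, 1 ≤ M → ∀ (n d : ℕ) (m : Fin n → ℕ) (J : Finset (Fin n)),
    J.card ≤ 9 → (∀ i, i ∉ J → m i ≤ M) → NefOn J d m → MovableBound (K * M ^ E) J d m →
    ∑ i ∈ J, m i + K * M ^ E ≤ 3 * d →
    ForGeneralPoints 2 n fun p => ImposesMaximalConditions 2 d p m := by
  obtain ⟨K, E, h⟩ := Pool.Agent.H18.Nef.nine_large
  exact ⟨K, E, fun M hM n d m J hJ hsmall hnef hbig hcan =>
    h M hM n d m J hJ hsmall ⟨hnef, hbig, hcan⟩⟩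

end Pool.Agent.Results.MP_0f5763_ag.NefNineLarge
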